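import Mathlib
import Pool.Agent.Y282.QPfin

set_option autoImplicit false

/-!
A radical weight on the positive rationals and a closed ideal of the weighted convolution algebra
which lies between the standard ideals of elements supported in `[2, ∞)` and in `[1, ∞)`, contains
an element with value one at the point one, and does not contain the point mass at one.
-/

namespace Pool.Agent.Results.MP_97b573_an.LocalNonstandard

/-- A radical weight on the strictly positive rationals. -/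
def IsRadicalWeight (w : ℚ → ℝ) : Prop :=
  (∀ q : ℚ, 0 < q → 0 < w q) ∧
  (∀ s t : ℚ, 0 < s → 0 < t → w (s + t) ≤ w s * w t) ∧
  (∀ t : ℚ, 0 < t →
    Filter.Tendsto (fun n : ℕ => w ((n : ℚ) * t) ^ ((1 : ℝ) / (n : ℝ))) Filter.atTop (nhds 0))

/-- The elements of the weighted algebra: functions vanishing off the strictly positive rationals
with finite weighted `ℓ¹` norm. -/
def InAlg (w : ℚ → ℝ) (f : ℚ → ℂ) : Prop :=
  (∀ q : ℚ, q ≤ 0 → f q = 0) ∧ Summable (fun q : ℚ => ‖f q‖ * w q)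

/-- Closed ideals of the weighted algebra. -/
def IsClosedIdeal (w : ℚ → ℝ) (I : Set (ℚ → ℂ)) : Prop :=
  (∀ f ∈ I, InAlg w f) ∧
  (0 : ℚ → ℂ) ∈ I ∧
  (∀ f ∈ I, ∀ g ∈ I, f + g ∈ I) ∧
  (∀ c : ℂ, ∀ f ∈ I, c • f ∈ I) ∧
  (∀ a : ℚ → ℂ, InAlg w a → ∀ f ∈ I, (fun t : ℚ => ∑' s : ℚ, a s * f (t - s)) ∈ I) ∧
  (∀ f : ℚ → ℂ, InAlg w f →
    (∀ ε : ℝ, 0 < ε → ∃ g ∈ I, ∑' q : ℚ, ‖f q - g q‖ * w q < ε) → f ∈ I)

open Pool.Agent.Y282.QP

lemma inA_of {f : ℚ → ℂ} (h : InAlg om f) : InA f :=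
  ⟨fun q hq => h.1 q hq.le, h.2⟩

/-- There are a radical weight `w` on the strictly positive rationals and a closed ideal `I` of the
weighted algebra such that every element of `I` is supported in `[1, ∞)`, every element of the
algebra supported in `[2, ∞)` is in `I`, some element of `I` has the value one at the point one,
and the point mass at one is not in `I`. -/
theorem result :
    ∃ w : ℚ → ℝ, IsRadicalWeight w ∧ ∃ I : Set (ℚ → ℂ), IsClosedIdeal w I ∧
      (∀ f ∈ I, ∀ q : ℚ, q < 1 → f q = 0) ∧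
      (∀ f : ℚ → ℂ, InAlg w f → (∀ q : ℚ, q < 2 → f q = 0) → f ∈ I) ∧
      (∃ f ∈ I, f 1 = 1) ∧
      (fun q : ℚ => if q = 1 then (1 : ℂ) else 0) ∉ I := by
  refine ⟨om, ⟨fun q _ => om_pos q, fun s t hs ht => om_submul s t hs.le ht.le, om_radical⟩,
    {f | f ∈ II ∧ ∀ q : ℚ, q < 1 → f q = 0}, ⟨?_, ?_, ?_, ?_, ?_, ?_⟩, ?_, ?_, ?_, ?_⟩
  · rintro f ⟨hf, h1⟩
    exact ⟨fun q hq => h1 q (by linarith), hf.1.2⟩
  · exact ⟨zero_mem, fun _ _ => rfl⟩
  · rintro f ⟨hf, hf1⟩ g ⟨hg, hg1⟩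
    exact ⟨add_mem hf hg, fun q hq => by rw [Pi.add_apply, hf1 q hq, hg1 q hq, add_zero]⟩
  · rintro c f ⟨hf, hf1⟩
    exact ⟨smul_mem c hf, fun q hq => by rw [Pi.smul_apply, hf1 q hq, smul_zero]⟩
  · rintro a ha f ⟨hf, hf1⟩
    refine ⟨conv_mem (inA_of ha) hf, fun t ht => ?_⟩
    have h0 : ∀ s : ℚ, a s * f (t - s) = 0 := by
      intro s
      by_cases hs : s ≤ 0
      · rw [ha.1 s hs, zero_mul]
      · rw [hf1 (t - s) (by push Not at hs; linarith), mul_zero]
    show ∑' s : ℚ, a s * f (t - s) = 0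
    rw [tsum_congr h0, tsum_zero]
  · intro f hf h
    refine ⟨closed_mem (inA_of hf) fun ε hε => ?_, fun q hq => ?_⟩
    · obtain ⟨g, hg, hlt⟩ := h ε hε
      exact ⟨g, hg.1, hlt⟩
    · by_contra hne
      have hpos : 0 < ‖f q‖ * om q := mul_pos (norm_pos_iff.2 hne) (om_pos q)
      obtain ⟨g, hg, hlt⟩ := h _ hpos
      have hs : Summable fun r : ℚ => ‖f r - g r‖ * om r :=
        (InA_sub (inA_of hf) hg.1.1).2
      have h1 : ‖f q - g q‖ * om q ≤ ∑' r : ℚ, ‖f r - g r‖ * om r :=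
        hs.le_tsum q fun r _ => mul_nonneg (norm_nonneg _) (om_pos r).le
      rw [hg.2 q hq, sub_zero] at h1
      linarith
  · rintro f ⟨-, h⟩
    exact h
  · intro f hf h2
    refine ⟨⟨inA_of hf, fun y hy => ?_⟩, fun q hq => h2 q (by linarith)⟩
    have h0 : ∀ q : ℚ, f q * hh (q + y) = 0 := by
      intro q
      by_cases hq : q < 2
      · rw [h2 q hq, zero_mul]
      · have : hh (q + y) = 0 := by
          unfold hh
          have h3 : H (q + y - 1) = 0 :=
            Hf_eq_zero_of_one_le _ (by push Not at hq; linarith)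
          rw [h3, Complex.ofReal_zero]
        rw [this, mul_zero]
    rw [tsum_congr h0, tsum_zero]
  · refine ⟨f0, ⟨f0_mem, fun q hq => ?_⟩, f0_one⟩
    unfold f0
    rw [Function.extend_apply']
    · rfl
    · rintro ⟨k, rfl⟩
      cases k with
      | zero => exact absurd hq (lt_irrefl _)
      | succ m =>
        have h1 : phi (m + 1) = 1 + 1 / 2 ^ (m + 1) := rfl
        have h2 : (0 : ℚ) < 1 / 2 ^ (m + 1) := by positivity
        rw [h1] at hq
        linarith
  · rintro ⟨h, -⟩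
    exact pm_not_mem h

end Pool.Agent.Results.MP_97b573_an.LocalNonstandard
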